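import Mathlib
import Pool.Agent.Lib.MP_0f3a7d_alU.Main

/-!
# Groups for languages in NP which embed in groups with simply connected cones only if the language is in alternating linear time

For every language `L` in NP there is a finitely generated group `G` with word problem in NP such that: if `G` embeds in a
finitely generated group all of whose asymptotic cones are simply connected, then `L` is accepted

* by an alternating machine in linear time with `O(log n)` rounds (alternations), and
* by a nondeterministic machine in polynomial time and, in the same runs, in linear space.

So a positive answer to Q1 would put NP into alternating linear time, hence into deterministic linear space (and NP would be
different from PSPACE), and a language in NP outside this class would answer Q1 negatively, with the group `G`.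

The definitions used in the statement are in `Pool/Agent/Lib/MP_0f3a7d_alT/Defs.lean`: machines with finitely many stacks (a
tape is a pair of stacks), the classes `InNP` and `InPolyTimeLinSpace`, word problems, asymptotic cones, `EmbedsSC`; and in
`Pool/Agent/Lib/MP_0f3a7d_alU/Alt.lean`: alternating machines, the class `InAltLin`.

Idea of the proof.

(1) For a language `L` over the finite alphabet `σ` let `F` be the free group on `σ` and a letter `y`, let `c_x = x y x⁻¹` for a
word `x` over `σ`, and let `G` be the HNN extension of `F` with a stable letter `t` which commutes with `c_x` for all `x` in
`L`. The `c_x` are free generators, hence `c_x` is in the subgroup generated by the `c_x'`, `x' ∈ L`, only for `x ∈ L`, and by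
Britton's lemma `x` is in `L` if and only if `t c_x t⁻¹ c_x⁻¹ = 1` in `G`. If `L` is in NP then the word problem of `G` is in
NP: a word with value `1` is reduced to the empty word by polynomially many steps through words of polynomial length, each
step deletes a pair of inverse letters or conjugates a stable letter by `c_x^e` with `x ∈ L`, and a machine can guess and check
these steps together with runs of the machine for `L` on the words `x`.

(2) If all asymptotic cones of a finitely generated group `H` are simply connected then there is `m` such that every word `w` of
length at least `m` with the value `1` is freely equal to a product of at most `m` conjugates `p u p⁻¹` of words `u` with the
value `1` of at most half the length, the `p` of length at most `m |w|` (otherwise a sequence of words without such products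
would give a loop in an asymptotic cone which is not null-homotopic).

(3) The alternating machine keeps a word `w` (at the beginning the image of `t c_x t⁻¹ c_x⁻¹`, of length linear in `|x|`). In a
round it guesses the `p` and `u` and checks in linear time, with a stack for the reduced word, that `w` is freely equal to the
product of the conjugates; then a universal choice picks one of the words `u`, which is the new word. The lengths are halved in
every round, so the time is a geometric sum; words of length less than `m` are compared with a finite list.

(4) Without alternation: hence every word with the value `1` of length `n` is reduced to the empty word by at most
`c (n + 1) ^ c` insertions and deletions of relations from a finite set and of pairs of inverse letters, all words on the way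
being of length at most `c (n + 1)`; a machine guesses these steps and keeps only the current word.
-/

namespace Pool.Agent.Results.MP_0f3a7d_al.AltLinearTime

open Pool.Agent.Lib.MP_0f3a7d_alT

theorem result (σ : Type) [Finite σ] (L : Set (List σ)) (hL : InNP L) :
    ∃ (G : Type) (_ : Group G), WordNP G ∧ (EmbedsSC G → InAltLin L ∧ InPolyTimeLinSpace L) :=
  ⟨HL L, inferInstance, (main L hL).1, fun h => ⟨main_alt L h, (main L hL).2 h⟩⟩

end Pool.Agent.Results.MP_0f3a7d_al.AltLinearTime
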